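import Pool.Agent.Q78.WI.Stm

/-!
# Independent vectors in the domain of the generator
-/

open MeasureTheory ProbabilityTheory Filter Topology Set
open scoped NNReal InnerProductSpace Matrix

namespace Pool.Agent.Q247.WI

open Pool.Agent.Q78.WI

universe u v

theorem a2 (h1 : S_A1.{u}) : S_A2.{u} := by
  intro H _ _ _ T hT halt d
  -- the domain is a submodule
  let D : Submodule ℝ H :=
    { carrier := {g | ∃ y, Gen T g y}
      add_mem' := by
        rintro a b ⟨y, hy⟩ ⟨z, hz⟩
        refine ⟨y + z, ?_⟩
        have h := hy.add hz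
        refine h.congr fun t => ?_
        rw [map_add, ← smul_add]
        congr 1
        abel
      zero_mem' := by
        refine ⟨0, ?_⟩
        show Tendsto (fun t : ℝ => t⁻¹ • (T t 0 - 0)) (𝓝[>] 0) (𝓝 0)
        simp
      smul_mem' := by
        rintro c a ⟨y, hy⟩
        refine ⟨c • y, ?_⟩
        have h := hy.const_smul c
        refine h.congr fun t => ?_
        rw [map_smul, ← smul_sub, smul_comm] }
  have hD : ∀ g, g ∈ D ↔ ∃ y, Gen T g y := fun g => Iff.rfl
  have hdense : Dense (D : Set H) := by
    rw [Metric.dense_iff]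
    intro g ε hε
    obtain ⟨g', y', hg', hlt⟩ := h1 H T hT g ε hε
    exact ⟨g', by rw [Metric.mem_ball, dist_eq_norm]; exact hlt, ⟨y', hg'⟩⟩
  have hfin : ¬ Module.Finite ℝ D := by
    intro hf
    have hclosed : IsClosed (D : Set H) := Submodule.closed_of_finiteDimensional D
    have htop : D = ⊤ := by
      rw [Submodule.eq_top_iff']
      intro x
      have : x ∈ closure (D : Set H) := hdense x
      rwa [hclosed.closure_eq] at this
    rcases halt with h | ⟨g, hg⟩
    · apply h
      rw [htop] at hf
      exact Module.Finite.equiv (Submodule.topEquiv (R := ℝ) (M := H))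
    · have : g ∈ D := by rw [htop]; trivial
      obtain ⟨y, hy⟩ := (hD g).1 this
      exact hg y hy
  have hrank : (d : Cardinal) ≤ Module.rank ℝ D := by
    have : Cardinal.aleph0 ≤ Module.rank ℝ D := by
      rw [← not_lt, Module.rank_lt_aleph0_iff]
      exact hfin
    exact (Cardinal.natCast_lt_aleph0).le.trans this
  obtain ⟨s, hs, hli⟩ := exists_finset_linearIndependent_of_le_rank hrank
  have e : Fin d ≃ s := (s.equivFinOfCardEq hs).symm
  choose y hy using fun x : D => (hD (x : H)).1 x.2
  refine ⟨fun i => ((e i : D) : H), fun i => y (e i : D), fun i => hy _, ?_⟩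
  have h2 : LinearIndependent ℝ (fun i : Fin d => ((e i : s) : D)) := hli.comp e e.injective
  exact h2.map' D.subtype (Submodule.ker_subtype D)

end Pool.Agent.Q247.WI
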